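import Pool.Agent.helper972_fm.Fin

/-!
# Residually reducible `p`-adic representations of `G_ℚ`: the image of inertia at `p` has finite index

Let `ρ` be a continuous representation of the absolute Galois group `G_ℚ`, of any dimension `n` and
over any Noetherian local ring with finite residue field of characteristic `p`, unramified outside
`p` and a set `S` of primes, whose residual semisimplification is the sum of the powers `ω ^ a i` of
the cyclotomic character modulo `p`.  Under a numerical condition on `p`, `S` and the exponents `a i`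
which, unlike the one in `InertiaImage`, allows a prime `l ≡ 1` modulo `p` in `S`, the image of `ρ`
is the union of finitely many cosets `ρ (φ ^ k) ρ (I_P)`, where `P` is any prime above `p`, `I_P` its
inertia group and `φ` a Frobenius element at `P`.  So `ρ (I_P)` has finite index in `ρ (G_ℚ)`, the
decomposition group has full image, and if `ρ (I_P)` is finite, then `ρ (G_ℚ)` is finite, as the
conjecture of Fontaine and Mazur predicts.  For instance, this holds for `p = 3`, `S = {7}` and all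
exponents.
-/

set_option autoImplicit false

open NumberField IsLocalRing Polynomial

namespace Pool.Agent.Results.MP_f68ac8_nt.DecompositionImage

/-- the absolute Galois group of the field `F`, with the Krull topology -/
abbrev AbsGal (F : Type) [Field F] : Type := Gal(AlgebraicClosure F/F)

/-- the field `F(ζ_p)`, generated over `F` by the `p`-th roots of unity -/
noncomputable abbrev cyclotomicField (F : Type) [Field F] (p : ℕ) :
    IntermediateField F (AlgebraicClosure F) :=
  IntermediateField.adjoin F {z : AlgebraicClosure F | z ^ p = 1}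

/-- the absolute Galois group of `K = ℚ(ζ_p)`: the group of all automorphisms of the algebraic
closure of `ℚ` which fix `K` -/
noncomputable abbrev GK (p : ℕ) : Subgroup (AbsGal ℚ) := (cyclotomicField ℚ p).fixingSubgroup

/-- `τ` lies in the inertia group at the prime ideal `P` of the ring of all algebraic integers -/
def InInertia (P : Ideal (𝓞 (AlgebraicClosure ℚ))) (τ : AbsGal ℚ) : Prop :=
  ∀ x : 𝓞 (AlgebraicClosure ℚ), τ • x - x ∈ P

/-- `g` raises all `p`-th roots of unity to the power `x`: the cyclotomic character `ω` modulo `p`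
takes the value `x` at `g`. -/
def ActsAs (p x : ℕ) (g : AbsGal ℚ) : Prop := ∀ z : AlgebraicClosure ℚ, z ^ p = 1 → g z = z ^ x

/-- The Galois group of `ℚ(ζ_p)` over `ℚ` acts on the character `f` of `GK p` through
`ω ^ (a - b)`: if `ω g = x`, then `x ^ b f (g h g⁻¹) = x ^ a f h` for all `h` in `GK p`. -/
def HasType (p a b : ℕ) (f : GK p →* Multiplicative (ZMod p)) : Prop :=
  ∀ (g : AbsGal ℚ) (x : ℕ), ActsAs p x g → ∀ h h' : GK p, (h' : AbsGal ℚ) = g * h * g⁻¹ →
    f h' ^ (x ^ b) = f h ^ (x ^ a)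

/-- There is no everywhere unramified cyclic extension of degree `p` of `ℚ(ζ_p)` on whose
characters the Galois group of `ℚ(ζ_p)` over `ℚ` acts through `ω ^ (a - b)`; this holds for all
`a` and `b` if `p` is a regular prime. -/
def NoUnramifiedExtension (p a b : ℕ) : Prop :=
  ∀ f : GK p →* Multiplicative (ZMod p), IsOpen (f.ker : Set (GK p)) →
    (∀ P : Ideal (𝓞 (AlgebraicClosure ℚ)), P.IsMaximal → ∀ τ : GK p, InInertia P τ → f τ = 1) →
    HasType p a b f → ∀ h, f h = 1

/-- The numerical condition on a pair of exponents `a`, `b`.  First part: `p ≤ 7`, or `a - b` is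
`0` or `1` modulo `p - 1`, or the `ω ^ (a - b)` part of the class group of `ℚ(ζ_p)` has no
`p`-torsion.  Second part: either `q ^ a ≢ q ^ (b + 1)` modulo `p` for all `q` in `S`, or `p` is odd,
`a - b ≡ 1` modulo `p - 1`, and `S` has at most one element `q`, for which
`q ^ (p - 1) ≢ 1` modulo `p ^ 2`. -/
def Good (p : ℕ) (S : Set ℕ) (a b : ℕ) : Prop :=
  (p ≤ 7 ∨ a ≡ b [MOD p - 1] ∨ a ≡ b + 1 [MOD p - 1] ∨ NoUnramifiedExtension p a b) ∧
  ((∀ q ∈ S, ¬ q ^ a ≡ q ^ (b + 1) [MOD p]) ∨
    (p ≠ 2 ∧ a ≡ b + 1 [MOD p - 1] ∧ ∃ q, S ⊆ {q} ∧ ¬ q ^ (p - 1) ≡ 1 [MOD p ^ 2]))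

/-- The weaker condition: `Good`, or `a ≡ b` modulo `p - 1` and all primes
in `S` which are `1` modulo `p` are equal to one prime `l ≡ 1` modulo `p` such that `p` is not a
`p`-th power modulo `l`. -/
def GoodOrSplit (p : ℕ) (S : Set ℕ) (a b : ℕ) : Prop :=
  Good p S a b ∨ (a ≡ b [MOD p - 1] ∧ ∃ l : ℕ, l.Prime ∧ p ∣ l - 1 ∧
    (p : ZMod l) ^ ((l - 1) / p) ≠ 1 ∧ ∀ q ∈ S, q ≠ l → ¬ q ≡ 1 [MOD p])

/-- `φ` is a Frobenius element at the prime ideal `P` above `p` -/
def IsFrobenius (p : ℕ) (P : Ideal (𝓞 (AlgebraicClosure ℚ))) (φ : AbsGal ℚ) : Prop :=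
  ∀ x : 𝓞 (AlgebraicClosure ℚ), φ • x - x ^ p ∈ P

/-- `ρ` is unramified outside `p` and `S`: it is trivial on the inertia groups at all maximal
ideals which contain neither `p` nor a prime number in `S`. -/
def UnramifiedOutside {n : ℕ} {A : Type} [CommRing A] (p : ℕ) (S : Set ℕ)
    (ρ : AbsGal ℚ →* GL (Fin n) A) : Prop :=
  ∀ P : Ideal (𝓞 (AlgebraicClosure ℚ)), P.IsMaximal → (p : 𝓞 (AlgebraicClosure ℚ)) ∉ P →
    (∀ q ∈ S, (q : 𝓞 (AlgebraicClosure ℚ)) ∉ P) → ∀ τ, InInertia P τ → ρ τ = 1

/-- The residual semisimplification of `ρ` is the sum of the powers `ω ^ a i` of the cyclotomic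
character modulo `p`: if `ω g = x`, the characteristic polynomial of `ρ g` is congruent modulo the
maximal ideal to the product of the `X - x ^ a i`. -/
def ResiduallySum {n : ℕ} {A : Type} [CommRing A] [IsLocalRing A] (p : ℕ) (a : Fin n → ℕ)
    (ρ : AbsGal ℚ →* GL (Fin n) A) : Prop :=
  ∀ (g : AbsGal ℚ) (x : ℕ), ActsAs p x g →
    (ρ g : Matrix (Fin n) (Fin n) A).charpoly.map (residue A) =
      ∏ i, (X - C ((x : ResidueField A) ^ a i))

theorem result (p : ℕ) [Fact p.Prime] (S : Set ℕ) (hS : ∀ q ∈ S, q.Prime ∧ q ≠ p)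
    (n : ℕ) (a : Fin n → ℕ) (hgood : ∀ i j, GoodOrSplit p S (a i) (a j))
    (A : Type) [CommRing A] [IsLocalRing A] [IsNoetherianRing A] [TopologicalSpace A]
    (hA : IsAdic (maximalIdeal A)) (hfin : Finite (ResidueField A))
    (hp : (p : A) ∈ maximalIdeal A) (ρ : AbsGal ℚ →* GL (Fin n) A) (hρ : Continuous ρ)
    (hur : UnramifiedOutside p S ρ) (hres : ResiduallySum p a ρ)
    (P : Ideal (𝓞 (AlgebraicClosure ℚ))) (hP : P.IsMaximal)
    (hpP : (p : 𝓞 (AlgebraicClosure ℚ)) ∈ P) :
    ∃ (φ : AbsGal ℚ) (m : ℕ), IsFrobenius p P φ ∧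
      ∀ g : AbsGal ℚ, ∃ k < m, ∃ τ : AbsGal ℚ, InInertia P τ ∧ ρ g = ρ (φ ^ k * τ) := by
  have hp' : p.Prime := Fact.out
  have hty : ∀ (c d : ℕ) (f : GK p →* Multiplicative (ZMod p)),
      Pool.Agent.helper972_fm.HasType p c d f → HasType p c d f := by
    intro c d f hf g x hg h h' hh'
    have h1 : h' = MulAut.conjNormal g h := by
      apply Subtype.ext
      rw [MulAut.conjNormal_apply]
      exact hh'
    rw [h1]
    exact hf g x hg h
  obtain ⟨φ, hφ⟩ := Pool.Agent.W924.UF.frobp p hp' P hP hpP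
  rcases Nat.eq_zero_or_pos n with rfl | hn
  · have hsub : Subsingleton (GL (Fin 0) A) := ⟨fun x y => Units.ext (Subsingleton.elim _ _)⟩
    refine ⟨φ, 1, hφ, fun g => ⟨0, one_pos, 1, fun x => ?_, Subsingleton.elim _ _⟩⟩
    rw [one_smul, sub_self]
    exact P.zero_mem
  have hgood' : ∀ i j, Pool.Agent.helper972_fm.GoodD p S (a i) (a j) := by
    intro i j
    rcases hgood i j with hg | hg
    · refine Or.inl ⟨?_, hg.2⟩
      rcases hg.1 with h | h | h | h
      · exact Or.inl h
      · exact Or.inr (Or.inl h)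
      · exact Or.inr (Or.inr (Or.inl h))
      · exact Or.inr (Or.inr (Or.inr fun f hf hu ht => h f hf hu (hty _ _ f ht)))
    · exact Or.inr hg
  obtain ⟨l, hl2, hl⟩ := Pool.Agent.helper972_fm.exists_l hp' hn a hgood'
  exact ⟨φ, l - 1, hφ, Pool.Agent.helper972_fm.finite_index hS a hgood' hl2 hl hA hfin hp ρ hρ hur
    hres hP hpP hφ⟩

end Pool.Agent.Results.MP_f68ac8_nt.DecompositionImage
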