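import Pool.Agent.helper972_fp.Tate

/-!
# Finitely many Frobenius elements decide about rationality, purity and Tate type

Let `K` be a number field, `S` a finite set of prime numbers, `k` a finite extension of `ℚ_p` and
`n` a natural number.  We consider all continuous representations of `G_K` over `k` of dimension `n`
which are unramified outside `p` and `S`; nothing is assumed at the places above `p`.

Suppose that at each place `v` of `K` a finite set `Φ v` of polynomials is given.  There is a finite
set `T` of prime numbers such that every representation for which the Frobenius polynomials at the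
places above `T` lie in the sets `Φ v` has this property at all places not above `p` and `S`; and
only finitely many semisimple representations have it.

So rationality, integrality and purity of a given weight, which hold for all representations that
come from geometry, hold at all places as soon as they hold at the places above `T`; and an
irreducible representation whose Frobenius eigenvalues at the places above `T` are roots of unity
times powers of the norm is a Tate twist of a representation with finite image.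
-/

set_option autoImplicit false

open NumberField Module Polynomial

namespace Pool.Agent.Results.MP_f68ac8_nt.FinitePropagation

attribute [local instance 10] DivisionRing.toRatAlgebra

/-- the absolute Galois group of `ℚ` -/
abbrev GQ : Type := Gal(AlgebraicClosure ℚ/ℚ)

/-- the ring of all algebraic integers -/
abbrev ZBar : Type := 𝓞 (AlgebraicClosure ℚ)

/-- the number fields, as subfields of the algebraic closure of `ℚ` -/
abbrev Sub : Type := IntermediateField ℚ (AlgebraicClosure ℚ)

/-- `τ` lies in the inertia group at the maximal ideal `P` of the ring of all algebraic integers -/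
def Inertia (P : Ideal ZBar) (τ : GQ) : Prop := ∀ x : ZBar, τ • x - x ∈ P

/-- the number of elements of the residue field of `K` at the place `v` -/
noncomputable def norm {K : Sub} (v : Ideal (𝓞 K)) : ℕ := Nat.card (𝓞 K ⧸ v)

/-- `σ` in `G_K` is a (geometric) Frobenius element at the maximal ideal `P` of the ring of all
algebraic integers: it induces the inverse of `x ↦ x ^ N` on the residue field of `P`, where `N` is
the number of elements of the residue field of `K` at the place below `P` -/
def Frobenius {K : Sub} (P : Ideal ZBar) (σ : K.fixingSubgroup) : Prop :=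
  ∀ x : ZBar, x - ((σ : GQ) • x) ^ norm (P.under (𝓞 K)) ∈ P

/-- the `p`-adic cyclotomic character -/
noncomputable def chi (p : ℕ) [Fact p.Prime] (σ : GQ) : ℚ_[p] :=
  ((cyclotomicCharacter (AlgebraicClosure ℚ) p
    (MulSemiringAction.toRingAut GQ (AlgebraicClosure ℚ) σ) : ℤ_[p]ˣ) : ℤ_[p])

section rep

variable {K : Sub} {k : Type} [Field k] {n : ℕ}

/-- `ρ` is unramified outside the prime numbers in `S` -/
def UnramifiedOutside (S : Set ℕ) (ρ : K.fixingSubgroup →* GL (Fin n) k) : Prop :=
  ∀ q : ℕ, q.Prime → q ∉ S → ∀ P : Ideal ZBar, P.IsMaximal → (q : ZBar) ∈ P →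
    ∀ τ : K.fixingSubgroup, Inertia P τ → ρ τ = 1

/-- `W` is stable under all `ρ g` -/
def Stable (ρ : K.fixingSubgroup →* GL (Fin n) k) (W : Submodule k (Fin n → k)) : Prop :=
  ∀ g, ∀ w ∈ W, (ρ g : Matrix (Fin n) (Fin n) k).mulVec w ∈ W

/-- every stable subspace is zero or everything -/
def Irreducible (ρ : K.fixingSubgroup →* GL (Fin n) k) : Prop :=
  ∀ W : Submodule k (Fin n → k), Stable ρ W → W = ⊥ ∨ W = ⊤

/-- every stable subspace has a stable complement -/
def Semisimple (ρ : K.fixingSubgroup →* GL (Fin n) k) : Prop :=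
  ∀ W : Submodule k (Fin n → k), Stable ρ W →
    ∃ W' : Submodule k (Fin n → k), Stable ρ W' ∧ IsCompl W W'

/-- the Frobenius polynomials at the places `v` above `q` lie in the sets `Φ v` -/
def FrobeniusIn (Φ : Ideal (𝓞 K) → Set k[X]) (ρ : K.fixingSubgroup →* GL (Fin n) k) (q : ℕ) :
    Prop :=
  ∀ P : Ideal ZBar, P.IsMaximal → (q : ZBar) ∈ P → ∀ σ : K.fixingSubgroup, Frobenius P σ →
    (ρ σ : Matrix (Fin n) (Fin n) k).charpoly ∈ Φ (P.under (𝓞 K))

end rep

section local_conditions

variable {k : Type} [Field k]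

/-- `f` comes from a polynomial over the number field `E` with integral coefficients which is pure of
weight `w` at places with residue fields of `N` elements: all roots of all its complex conjugates
have absolute value `N ^ (w / 2)` -/
def IntegralPure {E : Type} [Field E] (ι : E →+* k) (w N : ℕ) (f : k[X]) : Prop :=
  ∃ g : E[X], g.map ι = f ∧ (∀ i, IsIntegral ℤ (g.coeff i)) ∧
    ∀ (φ : E →+* ℂ) (z : ℂ), (g.map φ).eval z = 0 → ‖z‖ ^ 2 = (N : ℝ) ^ w

/-- every root of `f` is a root of unity times `N ^ m` with `m ∈ M` -/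
def TateType (M : Finset ℤ) (N : ℕ) (f : k[X]) : Prop :=
  ∀ z : AlgebraicClosure k, aeval z f = 0 →
    ∃ a : ℕ, 0 < a ∧ ∃ m ∈ M, z ^ a = (N : AlgebraicClosure k) ^ (m * a : ℤ)

end local_conditions

/-- The finite set `T` of prime numbers decides about the local conditions `Φ`: all continuous
representations of `G_K` of dimension `n` over `k`, unramified outside `p` and `S`, which satisfy them
at the places above `T` satisfy them at all places which are not above `p` and `S`; and up to
isomorphism only finitely many semisimple representations satisfy them at the places above `T`. -/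
structure Decides (K : Sub) (p : ℕ) (k : Type) [NormedField k] (n : ℕ) (S : Finset ℕ)
    (Φ : Ideal (𝓞 K) → Set k[X]) (T : Finset ℕ) : Prop where
  primes : ∀ q ∈ T, q.Prime ∧ q ∉ S ∧ q ≠ p
  everywhere : ∀ ρ : K.fixingSubgroup →* GL (Fin n) k, Continuous ρ →
    UnramifiedOutside (insert p S) ρ → (∀ q ∈ T, FrobeniusIn Φ ρ q) →
      ∀ q : ℕ, q.Prime → q ∉ S → q ≠ p → FrobeniusIn Φ ρ q
  finitely_many : ∃ L : Finset (K.fixingSubgroup →* GL (Fin n) k),
    ∀ ρ : K.fixingSubgroup →* GL (Fin n) k, Continuous ρ → UnramifiedOutside (insert p S) ρ →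
      Semisimple ρ → (∀ q ∈ T, FrobeniusIn Φ ρ q) →
        ∃ ρ' ∈ L, ∃ A : GL (Fin n) k, ∀ g, ρ' g = A * ρ g * A⁻¹

/-- **Main result.** -/
theorem result (K : Sub) (hK : FiniteDimensional ℚ K) (p : ℕ) [Fact p.Prime] (k : Type)
    [NormedField k] [NormedAlgebra ℚ_[p] k] (hk : FiniteDimensional ℚ_[p] k) (n : ℕ)
    (S : Finset ℕ) :
    (∀ Φ : Ideal (𝓞 K) → Set k[X],
      (∀ v, v.IsMaximal → {f ∈ Φ v | f.Monic ∧ f.natDegree = n}.Finite) →
        ∃ T : Finset ℕ, Decides K p k n S Φ T) ∧
    (∀ (E : Type) [Field E] [NumberField E] (ι : E →+* k) (w : ℕ), ∃ T : Finset ℕ,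
      Decides K p k n S (fun v => {f | IntegralPure ι w (norm v) f}) T) ∧
    ∀ M : Finset ℤ, ∃ T : Finset ℕ,
      Decides K p k n S (fun v => {f | TateType M (norm v) f}) T ∧
      ∀ ρ : K.fixingSubgroup →* GL (Fin n) k, 0 < n → Continuous ρ →
        UnramifiedOutside (insert p S) ρ → Irreducible ρ →
        (∀ q ∈ T, FrobeniusIn (fun v => {f | TateType M (norm v) f}) ρ q) →
          ∃ m ∈ M, (Set.range fun σ : K.fixingSubgroup =>
            algebraMap ℚ_[p] k (chi p σ) ^ m • (ρ σ : Matrix (Fin n) (Fin n) k)).Finite := by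
  classical
  have hp : p.Prime := Fact.out
  obtain ⟨S', hS'⟩ : ∃ S' : Finset ℕ, S' = (insert p S).filter Nat.Prime := ⟨_, rfl⟩
  have hS'p : ∀ q ∈ S', q.Prime := by
    intro q hq
    rw [hS'] at hq
    exact (Finset.mem_filter.1 hq).2
  have hpS' : p ∈ S' := by
    rw [hS']
    exact Finset.mem_filter.2 ⟨Finset.mem_insert_self _ _, hp⟩
  have hS'iff : ∀ q : ℕ, q.Prime → (q ∉ S' ↔ q ∉ S ∧ q ≠ p) := by
    intro q hq
    rw [hS', Finset.mem_filter, Finset.mem_insert, not_and', not_or]
    constructor
    · intro h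
      exact ⟨(h hq).2, (h hq).1⟩
    · intro h _
      exact ⟨h.2, h.1⟩
  have hAdm : ∀ ρ : K.fixingSubgroup →* GL (Fin n) k, Continuous ρ →
      UnramifiedOutside (insert p (S : Set ℕ)) ρ → Pool.Agent.helper972_fp.Adm S' ρ := by
    intro ρ h1 h2
    refine ⟨h1, fun q hq hqS P hP hqP τ hτ => h2 q hq ?_ P hP hqP τ hτ⟩
    have h3 := (hS'iff q hq).1 hqS
    rintro (h4 | h4)
    · exact h3.2 h4
    · exact h3.1 (Finset.mem_coe.1 h4)
  have main : ∀ Φ : Ideal (𝓞 K) → Set k[X],
      (∀ v, v.IsMaximal → {f ∈ Φ v | f.Monic ∧ f.natDegree = n}.Finite) →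
        ∃ T : Finset ℕ, Decides K p k n S Φ T := by
    intro Φ hΦ
    obtain ⟨T, hT1, hT2, L, -, hL⟩ := Pool.Agent.helper972_fp.propagate (F := K) (k := k) p n S' hS'p
      (fun v => {f ∈ Φ v | v.IsMaximal ∧ f.Monic ∧ f.natDegree = n}) (by
        intro v
        by_cases hv : v.IsMaximal
        · exact (hΦ v hv).subset fun f hf => ⟨hf.1, hf.2.2⟩
        · exact Set.finite_empty.subset fun f hf => hv hf.2.1)
    have hAt : ∀ (ρ : K.fixingSubgroup →* GL (Fin n) k) (q : ℕ),
        Pool.Agent.helper972_fp.At (fun v => {f ∈ Φ v | v.IsMaximal ∧ f.Monic ∧ f.natDegree = n})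
          ρ q ↔ FrobeniusIn Φ ρ q := by
      intro ρ q
      constructor
      · intro h P hP hqP σ hσ
        exact (h P hP hqP σ hσ).1
      · intro h P hP hqP σ hσ
        refine ⟨h P hP hqP σ hσ, Ideal.IsMaximal.under (𝓞 K) P, Matrix.charpoly_monic _, ?_⟩
        rw [Matrix.charpoly_natDegree_eq_dim, Fintype.card_fin]
    refine ⟨T, fun q hq => ?_, fun ρ h1 h2 h3 q hq hqS hqp => ?_, L, fun ρ h1 h2 h3 h4 => ?_⟩
    · have h1 := hT1 q hq
      exact ⟨h1.1, (hS'iff q h1.1).1 h1.2⟩
    · exact (hAt ρ q).1 (hT2 ρ (hAdm ρ h1 h2) (fun q hq => (hAt ρ q).2 (h3 q hq)) q hq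
        ((hS'iff q hq).2 ⟨hqS, hqp⟩))
    · exact hL ρ (hAdm ρ h1 h2) h3 fun q hq => (hAt ρ q).2 (h4 q hq)
  have tate : ∀ M : Finset ℤ, ∃ T : Finset ℕ,
      Decides K p k n S (fun v => {f | TateType M (norm v) f}) T := by
    intro M
    apply main
    intro v hv
    have hfin : Finite (𝓞 K ⧸ v) := Ideal.finiteQuotientOfFreeOfNeBot v
      (Ring.ne_bot_of_isMaximal_of_not_isField hv (RingOfIntegers.not_isField K))
    refine (Pool.Agent.helper972_fp.tate_finite (k := k) p n M (norm v) Nat.card_pos).subset ?_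
    rintro f ⟨h1, h2, h3⟩
    exact ⟨h2, h3, h1⟩
  refine ⟨main, ?_, ?_⟩
  · intro E _ _ ι w
    apply main
    intro v _
    refine (Pool.Agent.helper972_fp.pure_finite ι n w (norm v)).subset ?_
    rintro _ ⟨⟨g, rfl, h1, h2⟩, h3, h4⟩
    refine ⟨g, rfl, ?_, ?_, h1, h2⟩
    · have h5 : ι g.leadingCoeff = 1 := by
        rw [← Polynomial.leadingCoeff_map ι]
        exact h3
      exact ι.injective (h5.trans (map_one ι).symm)
    · rwa [Polynomial.natDegree_map] at h4
  · intro M
    obtain ⟨T, hT⟩ := tate M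
    refine ⟨T, hT, fun ρ hn h1 h2 h3 h4 => ?_⟩
    obtain ⟨m, hm, hfin⟩ := Pool.Agent.helper972_fp.tate_main p hn S' hpS' M ρ (hAdm ρ h1 h2) h3
      (by
        intro q hq hqS P hP hqP σ hσ
        have h5 := (hS'iff q hq).1 hqS
        refine ⟨Matrix.charpoly_monic _, ?_, ?_⟩
        · rw [Matrix.charpoly_natDegree_eq_dim, Fintype.card_fin]
        · exact hT.everywhere ρ h1 h2 h4 q hq h5.1 h5.2 P hP hqP σ hσ)
    refine ⟨m, hm, ?_⟩
    refine (hfin.image fun A : GL (Fin n) k => (A : Matrix (Fin n) (Fin n) k)).subset ?_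
    rintro _ ⟨σ, rfl⟩
    refine ⟨_, ⟨σ, rfl⟩, ?_⟩
    change (Pool.Agent.Y802.TS.tw ρ (Pool.Agent.helper972_fp.cycK p k K) m σ :
      Matrix (Fin n) (Fin n) k) = _
    rw [Pool.Agent.Y802.TS.tw_val, Units.val_zpow_eq_zpow_val]
    rfl

end Pool.Agent.Results.MP_f68ac8_nt.FinitePropagation
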