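import Pool.Agent.helper972_fm.Inertia

/-!
# Residually reducible `p`-adic representations of `G_ℚ` whose inertia group at `p` has full image

Let `ρ` be a continuous representation of the absolute Galois group `G_ℚ`, of any dimension `n` and
over any Noetherian local ring with finite residue field of characteristic `p`, unramified outside
`p` and a (possibly infinite) set `S` of primes, whose residual semisimplification is the sum of the
powers `ω ^ a i` of the cyclotomic character modulo `p`.  Under an explicit numerical condition on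
`p`, `S` and the exponents `a i`, the inertia group at one prime above `p` has the same image
under `ρ` as all of `G_ℚ`.  For instance, this holds for `p = 3`, `S = {2}` and all exponents.
-/

set_option autoImplicit false

open NumberField IsLocalRing Polynomial

namespace Pool.Agent.Results.MP_f68ac8_nt.InertiaImage

/-- the absolute Galois group of the field `F`, with the Krull topology -/
abbrev AbsGal (F : Type) [Field F] : Type := Gal(AlgebraicClosure F/F)

/-- the field `F(ζ_p)`, generated over `F` by the `p`-th roots of unity -/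
noncomputable abbrev cyclotomicField (F : Type) [Field F] (p : ℕ) :
    IntermediateField F (AlgebraicClosure F) :=
  IntermediateField.adjoin F {z : AlgebraicClosure F | z ^ p = 1}

/-- the absolute Galois group of `K = ℚ(ζ_p)`: the group of all automorphisms of the algebraic
closure of `ℚ` which fix `K` -/
noncomputable abbrev GK (p : ℕ) : Subgroup (AbsGal ℚ) := (cyclotomicField ℚ p).fixingSubgroup

/-- `τ` lies in the inertia group at the prime ideal `P` of the ring of all algebraic integers -/
def InInertia (P : Ideal (𝓞 (AlgebraicClosure ℚ))) (τ : AbsGal ℚ) : Prop :=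
  ∀ x : 𝓞 (AlgebraicClosure ℚ), τ • x - x ∈ P

/-- `g` raises all `p`-th roots of unity to the power `x`: the cyclotomic character `ω` modulo `p`
takes the value `x` at `g`. -/
def ActsAs (p x : ℕ) (g : AbsGal ℚ) : Prop := ∀ z : AlgebraicClosure ℚ, z ^ p = 1 → g z = z ^ x

/-- The Galois group of `ℚ(ζ_p)` over `ℚ` acts on the character `f` of `GK p` through
`ω ^ (a - b)`: if `ω g = x`, then `x ^ b f (g h g⁻¹) = x ^ a f h` for all `h` in `GK p`. -/
def HasType (p a b : ℕ) (f : GK p →* Multiplicative (ZMod p)) : Prop :=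
  ∀ (g : AbsGal ℚ) (x : ℕ), ActsAs p x g → ∀ h h' : GK p, (h' : AbsGal ℚ) = g * h * g⁻¹ →
    f h' ^ (x ^ b) = f h ^ (x ^ a)

/-- There is no everywhere unramified cyclic extension of degree `p` of `ℚ(ζ_p)` on whose
characters the Galois group of `ℚ(ζ_p)` over `ℚ` acts through `ω ^ (a - b)`; this holds for all
`a` and `b` if `p` is a regular prime. -/
def NoUnramifiedExtension (p a b : ℕ) : Prop :=
  ∀ f : GK p →* Multiplicative (ZMod p), IsOpen (f.ker : Set (GK p)) →
    (∀ P : Ideal (𝓞 (AlgebraicClosure ℚ)), P.IsMaximal → ∀ τ : GK p, InInertia P τ → f τ = 1) →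
    HasType p a b f → ∀ h, f h = 1

/-- The numerical condition on a pair of exponents `a`, `b`.  First part: `p ≤ 7`, or `a - b` is
`0` or `1` modulo `p - 1`, or the `ω ^ (a - b)` part of the class group of `ℚ(ζ_p)` has no
`p`-torsion.  Second part: either `q ^ a ≢ q ^ (b + 1)` modulo `p` for all `q` in `S`, or `p` is odd,
`a - b ≡ 1` modulo `p - 1`, and `S` has at most one element `q`, for which
`q ^ (p - 1) ≢ 1` modulo `p ^ 2`. -/
def Good (p : ℕ) (S : Set ℕ) (a b : ℕ) : Prop :=
  (p ≤ 7 ∨ a ≡ b [MOD p - 1] ∨ a ≡ b + 1 [MOD p - 1] ∨ NoUnramifiedExtension p a b) ∧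
  ((∀ q ∈ S, ¬ q ^ a ≡ q ^ (b + 1) [MOD p]) ∨
    (p ≠ 2 ∧ a ≡ b + 1 [MOD p - 1] ∧ ∃ q, S ⊆ {q} ∧ ¬ q ^ (p - 1) ≡ 1 [MOD p ^ 2]))

/-- `ρ` is unramified outside `p` and `S`: it is trivial on the inertia groups at all maximal
ideals which contain neither `p` nor a prime number in `S`. -/
def UnramifiedOutside {n : ℕ} {A : Type} [CommRing A] (p : ℕ) (S : Set ℕ)
    (ρ : AbsGal ℚ →* GL (Fin n) A) : Prop :=
  ∀ P : Ideal (𝓞 (AlgebraicClosure ℚ)), P.IsMaximal → (p : 𝓞 (AlgebraicClosure ℚ)) ∉ P →
    (∀ q ∈ S, (q : 𝓞 (AlgebraicClosure ℚ)) ∉ P) → ∀ τ, InInertia P τ → ρ τ = 1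

/-- The residual semisimplification of `ρ` is the sum of the powers `ω ^ a i` of the cyclotomic
character modulo `p`: if `ω g = x`, the characteristic polynomial of `ρ g` is congruent modulo the
maximal ideal to the product of the `X - x ^ a i`. -/
def ResiduallySum {n : ℕ} {A : Type} [CommRing A] [IsLocalRing A] (p : ℕ) (a : Fin n → ℕ)
    (ρ : AbsGal ℚ →* GL (Fin n) A) : Prop :=
  ∀ (g : AbsGal ℚ) (x : ℕ), ActsAs p x g →
    (ρ g : Matrix (Fin n) (Fin n) A).charpoly.map (residue A) =
      ∏ i, (X - C ((x : ResidueField A) ^ a i))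

theorem result (p : ℕ) [Fact p.Prime] (S : Set ℕ) (hS : ∀ q ∈ S, q.Prime ∧ q ≠ p)
    (n : ℕ) (a : Fin n → ℕ) (hgood : ∀ i j, Good p S (a i) (a j))
    (A : Type) [CommRing A] [IsLocalRing A] [IsNoetherianRing A] [TopologicalSpace A]
    (hA : IsAdic (maximalIdeal A)) (hfin : Finite (ResidueField A))
    (hp : (p : A) ∈ maximalIdeal A) (ρ : AbsGal ℚ →* GL (Fin n) A) (hρ : Continuous ρ)
    (hur : UnramifiedOutside p S ρ) (hres : ResiduallySum p a ρ)
    (P : Ideal (𝓞 (AlgebraicClosure ℚ))) (hP : P.IsMaximal)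
    (hpP : (p : 𝓞 (AlgebraicClosure ℚ)) ∈ P) :
    ∀ g : AbsGal ℚ, ∃ τ : AbsGal ℚ, InInertia P τ ∧ ρ τ = ρ g := by
  have hty : ∀ (c d : ℕ) (f : GK p →* Multiplicative (ZMod p)),
      Pool.Agent.helper972_fm.HasType p c d f → HasType p c d f := by
    intro c d f hf g x hg h h' hh'
    have h1 : h' = MulAut.conjNormal g h := by
      apply Subtype.ext
      rw [MulAut.conjNormal_apply]
      exact hh'
    rw [h1]
    exact hf g x hg h
  refine Pool.Agent.helper972_fm.main hS a (fun i j => ⟨?_, (hgood i j).2⟩) hA hfin hp ρ hρ hur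
    hres hP hpP
  rcases (hgood i j).1 with h | h | h | h
  · exact Or.inl h
  · exact Or.inr (Or.inl h)
  · exact Or.inr (Or.inr (Or.inl h))
  · exact Or.inr (Or.inr (Or.inr fun f hf hu ht => h f hf hu (hty _ _ f ht)))

end Pool.Agent.Results.MP_f68ac8_nt.InertiaImage
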